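import Pool.Agent.Q134.PR.Large

set_option autoImplicit false

/-!
A gap around large groups: if a finitely generated group has more, or fewer, finite quotients than
the large group `Γ`, then its number of subgroups of index at most `y` is off by a factorial.
-/

namespace Pool.Agent.Results.MP_58b9bb_al.FactorialGap

open Function Pool.Agent.Q98.DF Pool.Agent.Q134.PR

theorem result (Γ : Type) [Group Γ] (hΓ : Group.FG Γ) (hl : Large Γ) :
    (∀ (Δ : Type) [Group Δ], Group.FG Δ → FQle Γ Δ → ¬ FQle Δ Γ →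
      ∃ k : ℕ, 1 ≤ k ∧ ∃ Y : ℕ, ∀ y ≥ Y, num Γ y + (y / k).factorial ≤ num Δ y) ∧
    (∀ (Δ : Type) [Group Δ], Group.FG Δ → FQle Δ Γ → ¬ FQle Γ Δ →
      ∃ k : ℕ, 1 ≤ k ∧ ∃ Y : ℕ, ∀ y ≥ Y, num Δ y + (y / k).factorial ≤ num Γ y) ∧
    ((∀ (Δ : Type) [Group Δ], InGenus Δ Γ → Nonempty (Δ ≃* Γ)) ↔
      ∀ (Δ : Type) [Group Δ], Group.FG Δ → RF Δ → (FQle Γ Δ ∨ FQle Δ Γ) → Close Δ Γ →
        Nonempty (Δ ≃* Γ)) ∧
    (∀ H : Subgroup Γ, Group.FG H → Dense H → (Induced H ↔ Close H Γ)) := by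
  have hnum := large_factorial hΓ hl
  refine ⟨?_, ?_, ?_, ?_⟩
  · intro Δ _ hΔ h h'
    obtain ⟨m, hm, hm2⟩ := hnum
    exact far hΓ hΔ h h' ⟨m, hm, fun x hx => (hm2 x hx).trans (num_mono hΔ hΓ h x)⟩
  · intro Δ _ hΔ h h'
    exact far hΔ hΓ h h' hnum
  · constructor
    · intro hr Δ _ hΔ hrf h hc
      exact hr Δ ⟨hΔ, hrf, (close_iff hΔ hΓ hl h).2 hc⟩
    · intro hr Δ _ hg
      have h : FQle Γ Δ ∨ FQle Δ Γ := Or.inl fun Q _ _ => (hg.same Q).2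
      exact hr Δ hg.fg hg.rf h ((close_iff hg.fg hΓ hl h).1 hg.same)
  · intro H hfg hH
    rw [induced_iff hΓ hfg hH]
    exact close_iff hfg hΓ hl (Or.inl (dense_le hH))

end Pool.Agent.Results.MP_58b9bb_al.FactorialGap
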